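import Mathlib
import Pool.Agent.X202.VP6

set_option autoImplicit false

/-!
# Cesaro and de la Vallee-Poussin quasi-greedy bases are quasi-greedy
-/

namespace Pool.Agent.Results.MP_d7aa4b_an.CesaroGreedy

universe u

open Filter Topology

variable {𝕜 : Type} [RCLike 𝕜] {X : Type u} [NormedAddCommGroup X] [NormedSpace 𝕜 X]

/-- `x` with coordinate functionals `xs` is a basis: biorthogonality, dense linear span, and
both sequences bounded. -/
structure IsBasis (x : ℕ → X) (xs : ℕ → (X →L[𝕜] 𝕜)) : Prop where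
  biorthogonal : ∀ m n : ℕ, xs m (x n) = if m = n then 1 else 0
  dense_span : Dense ((Submodule.span 𝕜 (Set.range x) : Submodule 𝕜 X) : Set X)
  bounded : ∃ c : ℝ, ∀ n, ‖x n‖ ≤ c
  bounded_dual : ∃ c : ℝ, ∀ n, ‖xs n‖ ≤ c

/-- `O` is a greedy ordering for `f`: an injective sequence whose range contains the support of
`f` and along which the moduli of the coefficients do not increase. -/
structure IsGreedyOrdering (xs : ℕ → (X →L[𝕜] 𝕜)) (f : X) (O : ℕ → ℕ) : Prop where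
  injective : Function.Injective O
  support_subset : ∀ n, xs n f ≠ 0 → n ∈ Set.range O
  antitone : ∀ i j, i < j → ‖xs (O j) f‖ ≤ ‖xs (O i) f‖

/-- The greedy sums `G_m`. -/
noncomputable def greedySum (x : ℕ → X) (xs : ℕ → (X →L[𝕜] 𝕜)) (O : ℕ → ℕ) (f : X) (m : ℕ) : X :=
  ∑ j ∈ Finset.range m, xs (O j) f • x (O j)

/-- The Cesaro means `C_m = (1/m) (G_1 + ... + G_m)`. -/
noncomputable def cesaroMean (x : ℕ → X) (xs : ℕ → (X →L[𝕜] 𝕜)) (O : ℕ → ℕ) (f : X) (m : ℕ) : X :=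
  ((m : 𝕜)⁻¹) • ∑ n ∈ Finset.range m, greedySum x xs O f (n + 1)

/-- Quasi-greedy bases. -/
def IsQuasiGreedy (x : ℕ → X) (xs : ℕ → (X →L[𝕜] 𝕜)) : Prop :=
  ∃ C : ℝ, ∀ (f : X) (O : ℕ → ℕ), IsGreedyOrdering xs f O → ∀ m,
    ‖greedySum x xs O f m‖ ≤ C * ‖f‖

/-- Cesaro quasi-greedy (CQG) bases. -/
def IsCQG (x : ℕ → X) (xs : ℕ → (X →L[𝕜] 𝕜)) : Prop :=
  ∀ (f : X) (O : ℕ → ℕ), IsGreedyOrdering xs f O →
    Tendsto (fun m => cesaroMean x xs O f m) atTop (𝓝 f)

/-- de la Vallee-Poussin quasi-greedy (VPQG) bases. -/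
def IsVPQG (x : ℕ → X) (xs : ℕ → (X →L[𝕜] 𝕜)) : Prop :=
  ∀ (f : X) (O : ℕ → ℕ), IsGreedyOrdering xs f O →
    Tendsto (fun m => (2 : 𝕜) • cesaroMean x xs O f (2 * m) - cesaroMean x xs O f m) atTop (𝓝 f)

theorem sum_greedySum (x : ℕ → X) (xs : ℕ → (X →L[𝕜] 𝕜)) (O : ℕ → ℕ) (f : X) (m : ℕ) :
    ∑ n ∈ Finset.range m, greedySum x xs O f (n + 1) =
      ∑ j ∈ Finset.range m, ((m : 𝕜) - j) • (xs (O j) f • x (O j)) := by
  induction m with
  | zero => simp
  | succ m ih =>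
    rw [Finset.sum_range_succ, ih, greedySum, Finset.sum_range_succ _ m, Finset.sum_range_succ _ m,
      ← add_assoc, ← Finset.sum_add_distrib]
    congr 1
    · refine Finset.sum_congr rfl fun j _ => ?_
      have e1 : ((m + 1 : ℕ) : 𝕜) - j = ((m : 𝕜) - j) + 1 := by push_cast; ring
      rw [e1, add_smul, one_smul]
    · push_cast
      rw [add_sub_cancel_left, one_smul]

/-- The de la Vallee-Poussin means in terms of the weights. -/
theorem vp_eq (x : ℕ → X) (xs : ℕ → (X →L[𝕜] 𝕜)) (O : ℕ → ℕ) (f : X) (m : ℕ) :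
    (2 : 𝕜) • cesaroMean x xs O f (2 * m) - cesaroMean x xs O f m =
      ∑ j ∈ Finset.range (2 * m), ((Pool.Agent.X202.VP.wt m j : 𝕜) * xs (O j) f) • x (O j) := by
  rcases Nat.eq_zero_or_pos m with h0 | hm
  · subst h0; simp [cesaroMean]
  have hm' : (m : 𝕜) ≠ 0 := by exact_mod_cast hm.ne'
  have h1 : ∑ j ∈ Finset.range m, ((m : 𝕜) - j) • (xs (O j) f • x (O j)) =
      ∑ j ∈ Finset.range (2 * m), (if j < m then ((m : 𝕜) - j) else 0) • (xs (O j) f • x (O j)) := by
    refine Finset.sum_subset_zero_on_sdiff (Finset.range_subset_range.2 (by omega)) ?_ ?_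
    · intro j hj
      have := (Finset.mem_sdiff.1 hj).2
      rw [Finset.mem_range] at this
      rw [if_neg this, zero_smul]
    · intro j hj
      rw [if_pos (Finset.mem_range.1 hj)]
  rw [cesaroMean, cesaroMean, sum_greedySum, sum_greedySum, h1, Finset.smul_sum, Finset.smul_sum,
    Finset.smul_sum, ← Finset.sum_sub_distrib]
  refine Finset.sum_congr rfl fun j hj => ?_
  rw [Finset.mem_range] at hj
  rw [mul_smul]
  generalize xs (O j) f • x (O j) = v
  rw [smul_smul, smul_smul, smul_smul, ← sub_smul]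
  congr 1
  unfold Pool.Agent.X202.VP.wt
  by_cases h2 : j < m
  · rw [if_pos h2, if_pos h2]
    push_cast
    field_simp
    ring
  · rw [if_neg h2, if_neg h2, if_pos hj]
    push_cast
    field_simp
    ring

theorem vp_result [CompleteSpace X] (x : ℕ → X) (xs : ℕ → (X →L[𝕜] 𝕜)) (hb : IsBasis x xs)
    (h : IsVPQG x xs) : IsQuasiGreedy x xs := by
  classical
  obtain ⟨hbi, hd, ⟨c₁, hc₁⟩, ⟨c₂, hc₂⟩⟩ := hb
  set c := max 1 (max c₁ c₂) with hc
  have hc1 : 1 ≤ c := le_max_left _ _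
  have he : ∀ n, ‖x n‖ ≤ c := fun n =>
    (hc₁ n).trans ((le_max_left _ _).trans (le_max_right _ _))
  have hf : ∀ n, ‖xs n‖ ≤ c := fun n =>
    (hc₂ n).trans ((le_max_right _ _).trans (le_max_right _ _))
  have hbdd : Pool.Agent.X202.VP.Bdd (𝕜 := 𝕜) x ∅ := by
    by_contra hunb
    obtain ⟨y, O, hO, hR⟩ := Pool.Agent.X202.VP.hump x xs hbi hc1 he hf hunb
    have h1 := h y O ⟨hO.inj, hO.supp, hO.anti⟩
    obtain ⟨R, hR'⟩ := (Metric.isBounded_range_of_tendsto _ h1).exists_norm_le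
    obtain ⟨m, hm⟩ := hR (R + 1)
    have h2 := hR' _ (Set.mem_range_self m)
    rw [vp_eq] at h2
    linarith
  obtain ⟨C, hC0, hC⟩ := Pool.Agent.X202.VP.greedy_fin x xs hbi hc1 he hf hbdd
  refine ⟨C, fun f O hO m => ?_⟩
  have h1 := Pool.Agent.X202.VP.greedy_all x xs hbi hc1 he hf hC hd f
    ((Finset.range m).image O) (fun i hi j hj => by
      obtain ⟨k, hk, rfl⟩ := Finset.mem_image.1 hi
      rw [Finset.mem_range] at hk
      by_cases h0 : xs j f = 0
      · rw [h0, norm_zero]; exact norm_nonneg _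
      · obtain ⟨l, rfl⟩ := hO.support_subset j h0
        have hl : m ≤ l := by
          by_contra hlt
          exact hj (Finset.mem_image.2 ⟨l, Finset.mem_range.2 (not_le.1 hlt), rfl⟩)
        exact hO.antitone k l (lt_of_lt_of_le hk hl))
  rw [Finset.sum_image (fun i _ j _ hij => hO.injective hij)] at h1
  exact h1

/-- **Every VPQG basis, and every CQG basis, of a real or complex Banach space is quasi-greedy.** -/
theorem result (𝕜 : Type) [RCLike 𝕜] (X : Type u) [NormedAddCommGroup X] [NormedSpace 𝕜 X]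
    [CompleteSpace X] (x : ℕ → X) (xs : ℕ → (X →L[𝕜] 𝕜)) (hb : IsBasis x xs) :
    (IsCQG x xs → IsQuasiGreedy x xs) ∧ (IsVPQG x xs → IsQuasiGreedy x xs) := by
  refine ⟨fun h => vp_result x xs hb fun f O hO => ?_, vp_result x xs hb⟩
  have h1 := h f O hO
  have h2 : Tendsto (fun m : ℕ => 2 * m) atTop atTop :=
    tendsto_id.const_mul_atTop' (by norm_num)
  have h3 := ((h1.comp h2).const_smul (2 : 𝕜)).sub h1
  have h4 : (2 : 𝕜) • f - f = f := by
    rw [two_smul, add_sub_cancel_right]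
  rwa [h4] at h3

end Pool.Agent.Results.MP_d7aa4b_an.CesaroGreedy
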